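import Pool.Agent.V5helper14.FB.Stm

/-! Project FB, job FOREST: transversal embedding of a forest. -/

set_option autoImplicit false

namespace Pool.Agent.V5helper70.FB

open Finset
open Pool.Agent.V5helper14.FB

/-- `S_FOREST` with the additional hypothesis `0 < N` -/
def S_FOREST' : Prop :=
  ∀ (N k n : ℕ) (G : SimpleGraph (Fin N)) (H : SimpleGraph (Fin k)) (g : Fin k → ℕ), 0 < N → 1 ≤ n →
    NoHole G n → Function.Injective g → ∀ (B : Finset (Fin k)) (A : Fin k → Finset (Fin N)),
    (∀ s ∈ B, ∀ t ∈ B, s ≠ t → Disjoint (A s) (A t)) → (∀ t ∈ B, n * B.card + 1 ≤ (A t).card) →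
    (∀ v ∈ B, ∀ u ∈ B, ∀ u' ∈ B, H.Adj v u → H.Adj v u' → g u < g v → g u' < g v → u = u') →
    ∃ x : Fin k → Fin N, (∀ t ∈ B, x t ∈ A t) ∧ ∀ s ∈ B, ∀ t ∈ B, H.Adj s t → G.Adj (x s) (x t)

theorem t_FOREST : S_FOREST' := by
  classical
  intro N k n G H g hN hn hG hg B
  obtain ⟨b, hb⟩ : ∃ b, B.card = b := ⟨_, rfl⟩
  induction b generalizing B with
  | zero =>
    intro A _ _ _
    have hB : B = ∅ := card_eq_zero.1 hb
    subst hB
    exact ⟨fun _ => ⟨0, hN⟩, by simp, by simp⟩
  | succ b ih =>
    intro A hdis hcard hH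
    have hne : B.Nonempty := by
      rw [← card_pos]; omega
    obtain ⟨t, htB, htmax⟩ := exists_max_image B g hne
    have hcE : (B.erase t).card = b := by
      rw [card_erase_of_mem htB]; omega
    -- the elements of `A s` with a neighbour in `A t`
    let A' : Fin k → Finset (Fin N) := fun s =>
      if H.Adj t s then (A s).filter (fun a => ∃ y ∈ A t, G.Adj a y) else A s
    have hA'sub : ∀ s, A' s ⊆ A s := by
      intro s
      by_cases h : H.Adj t s
      · simp only [A', h, if_true]
        exact filter_subset _ _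
      · simp only [A', h, if_false]
        exact subset_rfl
    have hB0 : ∀ s ∈ B.erase t, n * (B.erase t).card + 1 ≤ (A' s).card := by
      intro s hs
      have hsB : s ∈ B := mem_of_mem_erase hs
      have hst : s ≠ t := ne_of_mem_erase hs
      have h1 := hcard s hsB
      rw [hb] at h1
      rw [hcE]
      have h2 : n * (b + 1) = n * b + n := by ring
      by_cases h : H.Adj t s
      · simp only [A', h, if_true]
        by_contra hcon
        push Not at hcon
        have h3 := card_filter_add_card_filter_not (s := A s) (fun a => ∃ y ∈ A t, G.Adj a y)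
        have h4 : n ≤ ((A s).filter (fun a => ¬ ∃ y ∈ A t, G.Adj a y)).card := by omega
        have h5 : n ≤ (A t).card := by
          have h6 := hcard t htB
          rw [hb] at h6
          nlinarith
        have h7 : Disjoint ((A s).filter (fun a => ¬ ∃ y ∈ A t, G.Adj a y)) (A t) :=
          disjoint_of_subset_left (filter_subset _ _) (hdis s hsB t htB hst)
        obtain ⟨a, ha, y, hy, hay⟩ := hG _ _ h7 h4 h5
        exact (mem_filter.1 ha).2 ⟨y, hy, hay⟩
      · simp only [A', h, if_false]
        omega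
    obtain ⟨x, hx1, hx2⟩ := ih (B.erase t) hcE A'
      (fun s hs s' hs' hss => disjoint_of_subset_left (hA'sub s) (disjoint_of_subset_right (hA'sub s')
        (hdis s (mem_of_mem_erase hs) s' (mem_of_mem_erase hs') hss)))
      hB0
      (fun v hv u hu u' hu' h1 h2 h3 h4 => hH v (mem_of_mem_erase hv) u (mem_of_mem_erase hu) u'
        (mem_of_mem_erase hu') h1 h2 h3 h4)
    -- the value at `t`
    obtain ⟨y, hyA, hy⟩ : ∃ y ∈ A t, ∀ s ∈ B.erase t, H.Adj t s → G.Adj (x s) y := by
      by_cases hex : ∃ s ∈ B.erase t, H.Adj t s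
      · obtain ⟨s, hs, hts⟩ := hex
        have h1 := hx1 s hs
        simp only [A', hts, if_true] at h1
        obtain ⟨y, hy, hxy⟩ := (mem_filter.1 h1).2
        refine ⟨y, hy, fun s' hs' hts' => ?_⟩
        have hlt : ∀ r ∈ B.erase t, g r < g t := by
          intro r hr
          have h2 := htmax r (mem_of_mem_erase hr)
          have h3 : g r ≠ g t := fun h => (ne_of_mem_erase hr) (hg h)
          omega
        have h4 : s' = s := hH t htB s' (mem_of_mem_erase hs') s (mem_of_mem_erase hs) hts' hts
          (hlt s' hs') (hlt s hs)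
        rw [h4]
        exact hxy
      · push Not at hex
        have h6 := hcard t htB
        obtain ⟨y, hy⟩ : (A t).Nonempty := by
          rw [← card_pos]; omega
        exact ⟨y, hy, fun s hs hts => absurd hts (hex s hs)⟩
    refine ⟨Function.update x t y, ?_, ?_⟩
    · intro s hs
      by_cases hst : s = t
      · subst hst
        rw [Function.update_self]
        exact hyA
      · rw [Function.update_of_ne hst]
        exact hA'sub s (hx1 s (mem_erase.2 ⟨hst, hs⟩))
    · intro s hs s' hs' hadj
      by_cases h1 : s = t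
      · by_cases h2 : s' = t
        · subst h1
          subst h2
          exact absurd hadj (H.loopless.irrefl _)
        · subst h1
          rw [Function.update_self, Function.update_of_ne h2]
          exact (hy s' (mem_erase.2 ⟨h2, hs'⟩) hadj).symm
      · by_cases h2 : s' = t
        · subst h2
          rw [Function.update_self, Function.update_of_ne h1]
          exact hy s (mem_erase.2 ⟨h1, hs⟩) hadj.symm
        · rw [Function.update_of_ne h1, Function.update_of_ne h2]
          exact hx2 s (mem_erase.2 ⟨h1, hs⟩) s' (mem_erase.2 ⟨h2, hs'⟩) hadj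

/-- the version with a nonempty `B` instead of `0 < N` -/
theorem t_FOREST_ne (N k n : ℕ) (G : SimpleGraph (Fin N)) (H : SimpleGraph (Fin k)) (g : Fin k → ℕ) (hn : 1 ≤ n)
    (hG : NoHole G n) (hg : Function.Injective g) (B : Finset (Fin k)) (hB : B.Nonempty) (A : Fin k → Finset (Fin N))
    (h1 : ∀ s ∈ B, ∀ t ∈ B, s ≠ t → Disjoint (A s) (A t)) (h2 : ∀ t ∈ B, n * B.card + 1 ≤ (A t).card)
    (h3 : ∀ v ∈ B, ∀ u ∈ B, ∀ u' ∈ B, H.Adj v u → H.Adj v u' → g u < g v → g u' < g v → u = u') :
    ∃ x : Fin k → Fin N, (∀ t ∈ B, x t ∈ A t) ∧ ∀ s ∈ B, ∀ t ∈ B, H.Adj s t → G.Adj (x s) (x t) := by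
  obtain ⟨t, ht⟩ := hB
  have h4 := h2 t ht
  obtain ⟨y, hy⟩ : (A t).Nonempty := by
    rw [← card_pos]; omega
  exact t_FOREST N k n G H g (Fin.pos y) hn hG hg B A h1 h2 h3

end Pool.Agent.V5helper70.FB
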